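import Pool.Agent.Helper30.AC.Stmts
import Pool.Agent.Helper40.BaireAffine2

/-! Row DOM of sheet AC: weak closure by dominated convergence. -/

set_option autoImplicit false

namespace Pool.Agent.Helper26.AC

open Filter Topology MeasureTheory Pool.Agent.Helper30.AC

universe u

theorem st_DOM : ST_DOM.{u} := by
  intro X E _ _ _ _ _ _ S g h B hg hB hl
  classical
  by_contra hh
  obtain ⟨φ, c, h1, h2⟩ := geometric_hahn_banach_closed_point
    (s := (S.topologicalClosure : Set C(X, E))) S.topologicalClosure.convex
    S.isClosed_topologicalClosure hh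
  have h0 : ∀ a ∈ S.topologicalClosure, φ a = 0 := by
    intro a ha
    by_contra hne
    have h3 := h1 (((c + 1) / φ a) • a) (S.topologicalClosure.smul_mem _ ha)
    rw [map_smul, smul_eq_mul, div_mul_cancel₀ _ hne] at h3
    linarith
  have hc : 0 < c := by
    have := h1 0 S.topologicalClosure.zero_mem
    rwa [map_zero] at this
  let _ : MeasurableSpace X := borel X
  have : BorelSpace X := ⟨rfl⟩
  obtain ⟨ν, hν1, hν2, hν⟩ := Pool.Agent.Helper40.BaireAffine.exists_dom φ
  have hhB : ∀ x, ‖h x‖ ≤ B := fun x =>
    le_of_tendsto (hl x).norm (Eventually.of_forall fun n => hB n x)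
  have hlim : Tendsto (fun m => ∫ x, ‖(g m - h) x‖ ∂ν) atTop (𝓝 (∫ _x, (0 : ℝ) ∂ν)) := by
    refine tendsto_integral_of_dominated_convergence (fun _ => B + B) ?_
      (integrable_const _) ?_ ?_
    · intro m
      exact ((g m - h).continuous.norm).aestronglyMeasurable
    · intro m
      refine Eventually.of_forall fun x => ?_
      rw [norm_norm]
      exact (norm_sub_le _ _).trans (add_le_add (hB m x) (hhB x))
    · refine Eventually.of_forall fun x => ?_
      have := (hl x).sub_const (h x)
      rw [sub_self] at this
      simpa using this.norm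
  rw [integral_zero] at hlim
  have h4 : Tendsto (fun _ : ℕ => |φ h|) atTop (𝓝 0) := by
    refine squeeze_zero (fun _ => abs_nonneg _) (fun m => ?_) hlim
    have h5 := hν (g m - h)
    rw [map_sub, h0 _ (hg m), zero_sub, abs_neg] at h5
    exact h5
  have h6 : |φ h| = 0 := tendsto_nhds_unique tendsto_const_nhds h4
  rw [abs_eq_zero] at h6
  linarith

end Pool.Agent.Helper26.AC
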